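import Pool.Agent.Helper880_AJ.Main
import Pool.Agent.Helper880_AJ.Cnt

/-!
# The Abel-Jacobi map on families of cycles, at all integral parameters

Let `X_x` be a family over `ℚ` of smooth projective varieties with parameter `x`, and let `Z_1, …, Z_k` be families over
`ℚ` of cycles of codimension `i` on the `X_x`, homologous to zero. By the conjecture, for rational `t` a combination
`a_1 Z_1(t) + … + a_k Z_k(t)` is torsion if its Abel-Jacobi image in `J^i(X_t)` is torsion, and one expects (for
divisors this is the theorem of Néron and Silverman) that for almost all `t` this happens only if it is torsion for all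
`x`. Outside of the cases which are controlled by abelian schemes nothing was known on the set of the rational `t` for which
the kernel of the complex Abel-Jacobi map on the span of the `Z_c(t)` is larger than that for the generic `x`: the
torsion locus of one normal function is a countable union of finite sets of algebraic points of unbounded degree, the
comparison of the complex with the `ℓ`-adic Abel-Jacobi map is open, and heights (Gao and Zhang for Ceresa
cycles) say something on the cycles but nothing on the complex Abel-Jacobi images. Here we show that for integral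
`t = 1 / x` this set is sparse, for **all** families, and that it is bounded (**no exceptions** among the integers
`t ≥ T`) if the fibre over `x = 0` has few periods.

**Setting.** Let `V_x` be a direct factor of `H^(2 i - 1)(X_x)` of rank `n`, and `E_x` the extension of `ℚ(-i)^k` by `V_x`
given by the cycles (a subquotient of the cohomology of the complement of the cycles). Its period matrix near `x = 0`,
with respect to a de Rham basis adapted to the Hodge filtration and to a Betti basis such that the first `n` vectors are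
bases of `V_x`, is `P(x) = C exp (M log x) Z(x)`, where `Z` is an upper block triangular matrix of G-functions over `ℚ`,
`M` is the logarithm of the local monodromy (`M = 0` if there is no degeneration at `x = 0`) and `C` is the matrix of
the periods of the central fibre `E_0` (or of the limit). The column `b` of `P` is in `F^(lev b)`, with `lev b = i` for
the last `k` columns. The extension class of `a ∈ ℚ^k` in `Ext (ℚ(-i), V_t) = V_t / (F^i V_t + V_(t, ℚ))`, i.e. the
image of `∑ a_c Z_c(t)` under the Abel-Jacobi map modulo torsion, is zero if and only if there is a rational vector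
`(v, a)` in `F^i E_t` (Carlson). So `torsion`, a subspace of `ℚ^k`, is the space of the relations between the Abel-Jacobi
images of the `Z_c(t)` modulo torsion. Let

* `h` be the number of the `b` with `lev b < i`, this is `dim V / F^i V = n / 2`,
* `s` be a number such that up to a common factor the entries of `C` are algebraic over a field generated by `s` numbers
  (there is always such an `s`), and `r = s` if `M = 0` and `r = s + 1` otherwise.

The only other hypothesis is that the elements of `Hom (ℚ^k, V)` are infinitesimal symmetries of `Z`: the relations of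
`Z` over `ℂ[x]` hold to first order for `(1 + ε X) Z`. This is so if `Hom (ℚ^k, V)` is contained in the Zariski closure
of the monodromy group of `E_x`. If `V` is not constant and irreducible under the monodromy group this is so if the
normal functions of the cycles are linearly independent modulo torsion (otherwise the extension of local systems given by a
combination would split).

**Theorem.** There is `G` which depends only on the family such that for all `C`:

1. For each `N` there is `E` such that for **all** integers `t_1, …, t_N` which are distinct, congruent modulo `G` and with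
   `(t_i - t_j + 2)^E ≤ t_j`, the sum of the dimensions of the spaces of relations at `t_1, …, t_N` is at most `r / h`.
2. For **all** integers `t ≥ T_0` the dimension of the space of relations is at most `r / h`. So there are no relations if
   `r < h`.
3. If `h > 0` there are no relations for all but `K x^(1 - δ)` integers `t ≤ x`.

**Consequences** (geometry, not in the Lean).

* Let the periods of `V_0` be algebraic over a field generated by `s < h` numbers (`X_0` smooth). Then for **all** integers
  `t ≥ T` no combination of the cycles which is not zero and is torsion in `CH^i (X_0)` has a torsion Abel-Jacobi image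
  at `X_t` (apply 2 to these combinations, for which `E_0` is the sum of `V_0` and `ℚ(-i)^k`). So if the `Z_c(0)` generate a
  group of rank `ρ` in `CH^i (X_0)`, then the Abel-Jacobi images of the `Z_c(t)` generate a group of rank at least
  `k - ρ` for **all** `t ≥ T`. If `ρ = 0`, the Abel-Jacobi map is injective modulo torsion on the span for all `t ≥ T`.
* Example: families of curves over `ℚ` of genus `g ≥ 3` with monodromy group `Sp_(2 g)` through a hyperelliptic curve with
  complex multiplication. The (primitive) Ceresa cycle is torsion at this curve, `n = C(2 g, 3) - 2 g` and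
  `s ≤ g + 1 < n / 2`. So its Abel-Jacobi image is not torsion for **all** `t ≥ T`, if it is not torsion for the generic curve.
* Pencils of hypersurfaces of odd dimension through a Fermat hypersurface of degree `d`, and cycles which are torsion
  on the Fermat hypersurface: here `s ≤ 1 + φ(d) / 2`, which is much smaller than `n / 2`.
* Part 3 applies to all families (complete intersections, Calabi-Yau threefolds, Ceresa cycles, …) without any
  hypothesis on the central fibre.

Proof (`Pool/Agent/Helper880_AJ`, `Helper880_ZP`). Let `e_(j, a) = (v, a)` be rational vectors in `F^i E_(t_j)`, linearly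
independent modulo `V`. The block matrices `Y` for which the `e_(j, a)` are eigenvectors form a rational Lie algebra `𝔥`
which contains an operator that splits the Hodge filtrations. By the theorem on such Lie algebras of our hand-in on
`MP_d83ecd_ag` (G-functions at many points of a window and derivations of an ultraproduct) the codimension of `𝔥 + Stab F` in
the space `Hom (ℚ^k, V)^N` of block matrices is at most `r`. But `Y ↦ (Y e_(j, a) mod F^i)` maps `𝔥 + Stab F` to zero and
`Hom (ℚ^k, V)^N` onto a space of dimension `h ∑ κ_j`, where `κ_j` is the number of the `e_(j, a)`.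
-/

set_option autoImplicit false

open PowerSeries
open scoped Matrix

namespace Pool.Agent.Results.MP_e28333_ag.AllMembersAbelJacobi

/-- an integer polynomial as a power series with rational coefficients -/
noncomputable def toQ (P : Polynomial ℤ) : PowerSeries ℚ := ((P.map (Int.castRingHom ℚ) : Polynomial ℚ) : PowerSeries ℚ)

/-- the power series `P(u^e)` -/
noncomputable def atPow (e : ℕ) (P : Polynomial ℤ) : PowerSeries ℂ :=
  ((Polynomial.expand ℂ e (P.map (Int.castRingHom ℂ)) : Polynomial ℂ) : PowerSeries ℂ)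

/-- the matrices `G_s` over `ℤ[x]` with `T^s y^(s) = G_s y` for all solutions `y` of `T y' = A y` -/
noncomputable def iter {r : ℕ} (T : Polynomial ℤ) (A : Fin r → Fin r → Polynomial ℤ) : ℕ → Fin r → Fin r → Polynomial ℤ
  | 0 => fun i j => if i = j then 1 else 0
  | s + 1 => fun i j => T * Polynomial.derivative (iter T A s i j) + ∑ l, iter T A s i l * A l j -
      (s : Polynomial ℤ) * (Polynomial.derivative T * iter T A s i j)

/-- The system `T y' = A y` has a fundamental matrix of solutions of the form `u^(-M) ∑_n Φ_n(u) (log u)^n` with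
`u^e = x` and convergent power series `Φ_n`: the point `0` is regular or a regular singularity with rational
exponents. -/
def QuasiUnipotent {r : ℕ} (T : Polynomial ℤ) (A : Fin r → Fin r → Polynomial ℤ) : Prop :=
  ∃ (e M : ℕ) (K : ℝ) (Φ : Matrix (Fin r) (Fin r) (Polynomial (PowerSeries ℂ))), 1 ≤ e ∧ Φ.det ≠ 0 ∧
    (∀ i j n m, ‖coeff m ((Φ i j).coeff n)‖ ≤ K ^ (m + 1)) ∧
    ∀ i j n, atPow e T * (X * PowerSeries.derivative ℂ ((Φ i j).coeff n) +
        ((n : PowerSeries ℂ) + 1) * (Φ i j).coeff (n + 1) - (M : PowerSeries ℂ) * (Φ i j).coeff n) =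
      (e : PowerSeries ℂ) * X ^ e * ∑ l, atPow e (A i l) * (Φ l j).coeff n

/-- `h_1, ..., h_r` are G-functions with rational coefficients which solve the differential system `T y' = A y`, with
the conditions of Siegel and Galochkin, and `0` is a regular point or a regular singularity with rational exponents of
the system. -/
structure GFamily {r : ℕ} (T : Polynomial ℤ) (A : Fin r → Fin r → Polynomial ℤ) (h : Fin r → PowerSeries ℚ) : Prop where
  /-- the denominator is not zero -/
  T_ne : T ≠ 0
  /-- the differential equations -/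
  ode : ∀ i, toQ T * PowerSeries.derivative ℚ (h i) = ∑ j, toQ (A i j) * h j
  /-- the coefficients have geometric growth -/
  size : ∃ C : ℝ, ∀ i m, |((coeff m (h i) : ℚ) : ℝ)| ≤ C ^ (m + 1)
  /-- the common denominators of the coefficients have geometric growth -/
  den : ∃ C : ℝ, ∀ m : ℕ, ∃ d : ℕ, 0 < d ∧ (d : ℝ) ≤ C ^ (m + 1) ∧ ∀ i, ∀ j ≤ m, ∃ a : ℤ, (d : ℚ) * coeff j (h i) = a
  /-- Galochkin's condition: the common denominators of the matrices `G_s / s!` have geometric growth -/
  galochkin : ∃ C : ℝ, ∀ m : ℕ, ∃ d : ℕ, 0 < d ∧ (d : ℝ) ≤ C ^ (m + 1) ∧ ∀ s ≤ m, ∀ i j,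
    ∃ H : Polynomial ℤ, (d : Polynomial ℤ) * iter T A s i j = (s.factorial : Polynomial ℤ) * H
  /-- the local exponents at `0` are rational and the singularity is regular -/
  regular : QuasiUnipotent T A

section family
variable {n : ℕ}

/-- the entries of a matrix -/
def entries (Z : Matrix (Fin n) (Fin n) (PowerSeries ℚ)) : Fin (n * n) → PowerSeries ℚ := fun a =>
  Z (finProdFinEquiv.symm a).1 (finProdFinEquiv.symm a).2

/-- rational matrices as complex matrices -/
def toC (M : Matrix (Fin n) (Fin n) ℚ) : Matrix (Fin n) (Fin n) ℂ := M.map fun x : ℚ => (x : ℂ)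

/-- the matrix `Z(1 / t)` -/
noncomputable def value (Z : Matrix (Fin n) (Fin n) (PowerSeries ℚ)) (t : ℕ) : Matrix (Fin n) (Fin n) ℂ :=
  Matrix.of fun i j => ((∑' k : ℕ, ((coeff k (Z i j) : ℚ) : ℝ) * (1 / (t : ℝ)) ^ k : ℝ) : ℂ)

/-- the period matrix `C exp (M log x) Z(x)` at `x = 1 / t` -/
noncomputable def period (C : Matrix (Fin n) (Fin n) ℂ) (M : Matrix (Fin n) (Fin n) ℚ)
    (Z : Matrix (Fin n) (Fin n) (PowerSeries ℚ)) (t : ℕ) : Matrix (Fin n) (Fin n) ℂ :=
  C * (NormedSpace.exp ((-((Real.log (t : ℝ) : ℝ) : ℂ)) • toC M) * value Z t)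

/-- the matrix of power series with complex coefficients -/
noncomputable def overC (Z : Matrix (Fin n) (Fin n) (PowerSeries ℚ)) : Matrix (Fin n) (Fin n) (PowerSeries ℂ) :=
  Z.map (PowerSeries.map (algebraMap ℚ ℂ))

/-- `X` is an infinitesimal symmetry of `Z`: for all polynomial relations `R(x, Z(x)) = 0` over `ℂ[x]` the derivative of
`R(x, (1 + ε X) Z(x))` at `ε = 0` is zero. -/
def Symmetry (Z : Matrix (Fin n) (Fin n) (PowerSeries ℚ)) (X : Matrix (Fin n) (Fin n) ℂ) : Prop :=
  ∀ R : MvPolynomial (Fin n × Fin n) (Polynomial ℂ), MvPolynomial.aeval (fun b => overC Z b.1 b.2) R = 0 →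
    ∑ b, MvPolynomial.aeval (fun b => overC Z b.1 b.2) (MvPolynomial.pderiv b R) *
      (X.map (PowerSeries.C (R := ℂ)) * overC Z) b.1 b.2 = 0

/-- up to a common factor the entries of `C` are algebraic over a field generated by `s` numbers -/
def FewPeriods (s : ℕ) (C : Matrix (Fin n) (Fin n) ℂ) : Prop :=
  ∃ (b : Fin s → ℂ) (κ : ℂ), κ ≠ 0 ∧ ∀ i j, IsAlgebraic (IntermediateField.adjoin ℚ (Set.range b)) (κ * C i j)

/-- the step `F^p` of the Hodge filtration, in the Betti coordinates: it is spanned by the columns `b` of the period matrix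
`P` with `lev b ≥ p` -/
def hodge (lev : Fin n → ℤ) (P : Matrix (Fin n) (Fin n) ℂ) (p : ℤ) : Submodule ℂ (Fin n → ℂ) :=
  Submodule.span ℂ {v | ∃ b, p ≤ lev b ∧ v = fun i => P i b}

/-- block matrices with the lower left block `0`: the first `d` coordinates are a sub-object -/
def Upper {R : Type} [Zero R] (d : ℕ) (X : Matrix (Fin n) (Fin n) R) : Prop :=
  ∀ a b : Fin n, d ≤ (a : ℕ) → (b : ℕ) < d → X a b = 0

/-- the matrices `(0 *; 0 0)`, i.e. the linear maps from the quotient to the sub-object -/
def Corner (d : ℕ) (X : Matrix (Fin n) (Fin n) ℂ) : Prop :=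
  ∀ a b : Fin n, ¬((a : ℕ) < d ∧ d ≤ (b : ℕ)) → X a b = 0

end family

section
variable {n k : ℕ}

/-- The vectors `a ∈ ℚ^k` which are the image of a rational vector in `F^i` of the extension `E` of `ℚ(-i)^k` by `V`: the
extension class of `a` in `Ext (ℚ(-i), V) = V / (F^i V + V_ℚ)` is zero. -/
def torsion (lev : Fin (n + k) → ℤ) (P : Matrix (Fin (n + k)) (Fin (n + k)) ℂ) (i : ℤ) : Submodule ℚ (Fin k → ℚ) where
  carrier := {a | ∃ v : Fin n → ℚ, (fun b => ((Fin.append v a b : ℚ) : ℂ)) ∈ hodge lev P i}
  zero_mem' := ⟨0, by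
    have h : (fun b => ((Fin.append (0 : Fin n → ℚ) (0 : Fin k → ℚ) b : ℚ) : ℂ)) = 0 := by
      funext b
      refine Fin.addCases (fun b => ?_) (fun b => ?_) b
      · rw [Fin.append_left]
        exact Rat.cast_zero
      · rw [Fin.append_right]
        exact Rat.cast_zero
    rw [h]
    exact Submodule.zero_mem _⟩
  add_mem' := by
    rintro a a' ⟨v, hv⟩ ⟨v', hv'⟩
    refine ⟨v + v', ?_⟩
    have h : (fun b => ((Fin.append (v + v') (a + a') b : ℚ) : ℂ)) =
        (fun b => ((Fin.append v a b : ℚ) : ℂ)) + fun b => ((Fin.append v' a' b : ℚ) : ℂ) := by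
      funext b
      rw [Pi.add_apply, ← Rat.cast_add]
      refine Fin.addCases (fun b => ?_) (fun b => ?_) b
      · rw [Fin.append_left, Fin.append_left, Fin.append_left]
        rfl
      · rw [Fin.append_right, Fin.append_right, Fin.append_right]
        rfl
    rw [h]
    exact Submodule.add_mem _ hv hv'
  smul_mem' := by
    rintro c a ⟨v, hv⟩
    refine ⟨c • v, ?_⟩
    have h : (fun b => ((Fin.append (c • v) (c • a) b : ℚ) : ℂ)) = (c : ℂ) • fun b => ((Fin.append v a b : ℚ) : ℂ) := by
      funext b
      rw [Pi.smul_apply, smul_eq_mul, ← Rat.cast_mul]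
      refine Fin.addCases (fun b => ?_) (fun b => ?_) b
      · rw [Fin.append_left, Fin.append_left]
        rfl
      · rw [Fin.append_right, Fin.append_right]
        rfl
    rw [h]
    exact Submodule.smul_mem _ _ hv

end

/-- the numbers `t_j` are distinct and congruent modulo `G`, and `(t_i - t_j + 2)^E ≤ t_j` -/
def InWindow (G E : ℕ) {N : ℕ} (t : Fin N → ℕ) : Prop :=
  Function.Injective t ∧ (∀ i j, t i ≡ t j [MOD G]) ∧ ∀ i j, (t i - t j + 2) ^ E ≤ t j

theorem iter_eq {r : ℕ} (T : Polynomial ℤ) (A : Fin r → Fin r → Polynomial ℤ) (s : ℕ) :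
    iter T A s = Pool.Agent.Y120.GH.itm T A s := by
  induction s with
  | zero => rfl
  | succ s ih =>
    funext i j
    rw [iter, Pool.Agent.Y120.GH.itm, ih]

theorem qu_eq {r : ℕ} {T : Polynomial ℤ} {A : Fin r → Fin r → Polynomial ℤ} (h : QuasiUnipotent T A) :
    Pool.Agent.Y120.GH.QU0 T A := by
  obtain ⟨e, M, K, Φ, he, hdet, hc, heq⟩ := h
  have he0 : e ≠ 0 := by omega
  refine ⟨e, he0, M, K, Φ, hc, fun i j n => ?_, hdet⟩
  have h1 := heq i j n
  simp only [atPow] at h1
  rw [Pool.Agent.Y120.GH.expand_poly he0]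
  simp only [Pool.Agent.Y120.GH.expand_poly he0]
  exact h1

theorem gal_eq {r : ℕ} {T : Polynomial ℤ} {A : Fin r → Fin r → Polynomial ℤ} {h : Fin r → PowerSeries ℚ}
    (hG : GFamily T A h) : ∃ C : ℝ, ∀ m, ∃ d : ℕ, 0 < d ∧ (d : ℝ) ≤ C ^ (m + 1) ∧ ∀ s ≤ m, ∀ i j, ∃ H : Polynomial ℤ,
      (d : Polynomial ℤ) * Pool.Agent.Y120.GH.itm T A s i j = (s.factorial : Polynomial ℤ) * H := by
  obtain ⟨C, hC⟩ := hG.galochkin
  refine ⟨C, fun m => ?_⟩
  obtain ⟨d, h1, h2, h3⟩ := hC m
  refine ⟨d, h1, h2, fun s hs i' j' => ?_⟩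
  rw [← iter_eq]
  exact h3 s hs i' j'

theorem map_eq {n : ℕ} (M : Matrix (Fin n) (Fin n) ℚ) : toC M = Pool.Agent.Y119.HY.cm M := by
  ext i j
  rw [Pool.Agent.Y119.HY.cm_apply]
  rfl

theorem sym_inf {n : ℕ} {Z : Matrix (Fin n) (Fin n) (PowerSeries ℚ)} {X : Matrix (Fin n) (Fin n) ℂ} (h : Symmetry Z X) :
    Pool.Agent.Helper880_R3.Inf Z X := by
  intro R hR
  refine Eq.trans ?_ (h R hR)
  unfold Pool.Agent.Helper880_R3.DX
  rw [map_sum]
  refine Finset.sum_congr rfl fun b _ => ?_
  rw [map_mul, map_sum, Matrix.mul_apply]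
  refine congrArg₂ (· * ·) rfl (Finset.sum_congr rfl fun l _ => ?_)
  rw [map_mul, MvPolynomial.aeval_C, MvPolynomial.aeval_X, Matrix.map_apply, Matrix.map_apply]
  have h1 : algebraMap (Polynomial ℂ) (PowerSeries ℂ) (Polynomial.C (X b.1 l)) = PowerSeries.C (X b.1 l) :=
    Polynomial.coe_C _
  rw [h1]
  rfl

/-- a basis of the kernel -/
theorem exists_vec {n k : ℕ} (lev : Fin (n + k) → ℤ) (P : Matrix (Fin (n + k)) (Fin (n + k)) ℂ) (i : ℤ) :
    ∃ e : Fin (Module.finrank ℚ (torsion lev P i)) → Fin (n + k) → ℚ,
      (LinearIndependent ℚ fun a (c : {c : Fin (n + k) // n ≤ (c : ℕ)}) => e a c.1) ∧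
      ∀ a, (fun b => (e a b : ℂ)) ∈ hodge lev P i := by
  let B := Module.finBasis ℚ (torsion lev P i)
  choose v hv using fun a => (B a).2
  refine ⟨fun a => Fin.append (v a) (B a : Fin k → ℚ), ?_, hv⟩
  refine LinearIndependent.of_comp (LinearMap.funLeft ℚ ℚ fun c : Fin k =>
    (⟨Fin.natAdd n c, by rw [Fin.val_natAdd]; exact Nat.le_add_right _ _⟩ : {c : Fin (n + k) // n ≤ (c : ℕ)})) ?_
  have h1 : (⇑(LinearMap.funLeft ℚ ℚ fun c : Fin k =>
      (⟨Fin.natAdd n c, by rw [Fin.val_natAdd]; exact Nat.le_add_right _ _⟩ : {c : Fin (n + k) // n ≤ (c : ℕ)})) ∘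
      fun a (c : {c : Fin (n + k) // n ≤ (c : ℕ)}) => Fin.append (v a) (B a : Fin k → ℚ) c.1) =
      fun a => (B a : Fin k → ℚ) := by
    funext a c
    exact Fin.append_right _ _ _
  rw [h1]
  exact B.linearIndependent.map' (torsion lev P i).subtype (Submodule.ker_subtype _)

/-- **The theorem.** -/
theorem result (n k : ℕ) (hnk : 0 < n + k) (T : Polynomial ℤ)
    (A : Fin ((n + k) * (n + k)) → Fin ((n + k) * (n + k)) → Polynomial ℤ)
    (Z : Matrix (Fin (n + k)) (Fin (n + k)) (PowerSeries ℚ)) (hG : GFamily T A (entries Z)) (hZ : Upper n Z)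
    (M : Matrix (Fin (n + k)) (Fin (n + k)) ℚ) (hM : M ^ (n + k) = 0) (hMu : Upper n M)
    (hI : ∀ X, Corner n X → Symmetry Z X) :
    ∃ G : ℕ, 1 ≤ G ∧ ∀ (s : ℕ) (C : Matrix (Fin (n + k)) (Fin (n + k)) ℂ) (lev : Fin (n + k) → ℤ) (i : ℤ),
      Upper n C → FewPeriods s C → (∀ b : Fin (n + k), n ≤ (b : ℕ) → lev b = i) →
      -- 1: windows
      (∀ N : ℕ, 0 < N → ∃ E : ℕ, ∀ t : Fin N → ℕ, InWindow G E t → (∀ j, IsUnit (period C M Z (t j))) →
        (∑ j, Module.finrank ℚ (torsion lev (period C M Z (t j)) i)) * Fintype.card {b // lev b < i} ≤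
          s + if M = 0 then 0 else 1) ∧
      -- 2: all members
      (∃ T₀ : ℕ, ∀ t : ℕ, T₀ ≤ t → IsUnit (period C M Z t) →
        Module.finrank ℚ (torsion lev (period C M Z t) i) * Fintype.card {b // lev b < i} ≤ s + if M = 0 then 0 else 1) ∧
      -- 3: the exceptional parameters are sparse
      ((∃ b, lev b < i) → ∃ K δ : ℝ, 0 < δ ∧ ∀ x : ℕ, 1 ≤ x →
        (({t : ℕ | (IsUnit (period C M Z t) ∧ torsion lev (period C M Z t) i ≠ ⊥) ∧ t ≤ x}.ncard : ℕ) : ℝ) ≤
          K * (x : ℝ) ^ (1 - δ)) := by
  obtain ⟨q', C', hG'⟩ := Pool.Agent.Y120.GH.gsys_of hG.ode hG.size hG.den (gal_eq hG)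
  obtain ⟨G, hG1, h⟩ := Pool.Agent.Helper880_AJ.main (n := n) hnk hG.T_ne hG.ode hG' (qu_eq hG.regular)
    (fun X hX => sym_inf (hI X hX)) hM hMu hZ
  refine ⟨G, hG1, fun s C lev i hCu hfew hlev => ?_⟩
  have hper : ∀ t : ℕ, period C M Z t = C * (NormedSpace.exp ((-((Real.log (t : ℝ) : ℝ) : ℂ)) •
      Pool.Agent.Y119.HY.cm M) * Pool.Agent.Y118.HV.Hv Z t) := by
    intro t
    unfold period
    rw [map_eq]
    rfl
  have hfew' : Pool.Agent.Helper880_R3.Few s (0 : Matrix (Fin 0) (Fin 0) ℂ) C := by
    obtain ⟨b, κ, hκ, hb⟩ := hfew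
    exact ⟨b, κ, hκ, fun i => i.elim0, hb⟩
  have h1 : ∀ N : ℕ, 0 < N → ∃ E : ℕ, ∀ t : Fin N → ℕ, InWindow G E t → (∀ j, IsUnit (period C M Z (t j))) →
        (∑ j, Module.finrank ℚ (torsion lev (period C M Z (t j)) i)) * Fintype.card {b // lev b < i} ≤
          s + if M = 0 then 0 else 1 := by
    intro N hN
    obtain ⟨E, hE⟩ := h N s _ C lev i hN hCu hfew' le_rfl hlev
    refine ⟨E, fun t ht hu => ?_⟩
    choose e he1 he2 using fun j => exists_vec lev (period C M Z (t j)) i
    exact hE t ht.1 ht.2.1 ht.2.2 (fun j => period C M Z (t j)) (funext fun j => hper (t j)) hu _ e he1 he2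
  refine ⟨h1, ?_, fun hlow => ?_⟩
  · obtain ⟨E, hE⟩ := h1 1 one_pos
    refine ⟨2 ^ E, fun t ht hu => ?_⟩
    have h2 := hE (fun _ => t) ⟨fun a b _ => Subsingleton.elim a b, fun _ _ => rfl, fun _ _ => by
      rw [Nat.sub_self, Nat.zero_add]
      exact ht⟩ fun _ => hu
    rwa [Fin.sum_univ_one] at h2
  · set r := s + if M = 0 then 0 else 1 with hr
    obtain ⟨E, hE⟩ := h1 (r + 1) (Nat.succ_pos r)
    obtain ⟨K, δ, hδ, hK⟩ := Pool.Agent.Helper880_AJ.count_win (G := G) (E := E) (N := r + 1) (by omega) (Nat.succ_pos r)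
    refine ⟨K, δ, hδ, fun x hx => hK {t | IsUnit (period C M Z t) ∧ torsion lev (period C M Z t) i ≠ ⊥} ?_ x hx⟩
    intro t ht1 ht2 ht3
    by_contra hcon
    simp only [not_exists, not_not] at hcon
    have h2 := hE t ⟨ht1, ht2, ht3⟩ fun j => (hcon j).1
    have h3 : r + 1 ≤ ∑ j, Module.finrank ℚ (torsion lev (period C M Z (t j)) i) := by
      calc r + 1 = ∑ _j : Fin (r + 1), 1 := by
            rw [Finset.sum_const, Finset.card_univ, Fintype.card_fin, smul_eq_mul, mul_one]
        _ ≤ _ := Finset.sum_le_sum fun j _ => Submodule.one_le_finrank_iff.2 (hcon j).2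
    have h4 : 1 ≤ Fintype.card {b // lev b < i} := by
      obtain ⟨b, hb⟩ := hlow
      exact Fintype.card_pos_iff.2 ⟨⟨b, hb⟩⟩
    have h5 := Nat.mul_le_mul h3 h4
    omega

end Pool.Agent.Results.MP_e28333_ag.AllMembersAbelJacobi
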